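import Pool.Agent.H19.BFL.Stmts
import Pool.Agent.H45.KAL.CIL

/-!
# Row VIS of the board kbfl
-/

set_option autoImplicit false

namespace Pool.BFL

open Finset Real
open Pool.Agent.H49.Ent Pool.Agent.H32.Dense Pool.STK Pool.KS3

open Classical in
/-- Two conditionally independent variables are at least as often related as in a pair of
conditionally independent copies. -/
theorem ci_le_copies {S T W Z : Type} [Fintype W] {q : W → ℝ} (hq : IsLaw q) {X : W → S}
    {Y : W → T} {f : W → Z} (h : CI q X Y f) (R : S → T → Prop) :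
    ∑ w, (if R (X w) (Y w) then q w else 0) ≤
      ∑ w, ∑ w', (if f w = f w' ∧ R (X w) (Y w') then q w * q w' / law q f (f w) else 0) := by
  have h0 := hq.nonneg
  set V : W → S × (T × Z) := fun w => (X w, (Y w, f w)) with hV
  have e1 : ∑ w, (if R (X w) (Y w) then q w else 0) =
      ∑ s ∈ univ.image V, law q V s * (if R s.1 s.2.1 then 1 else 0) := by
    rw [← sum_mul_eq_sum_image q V (fun s => if R s.1 s.2.1 then (1 : ℝ) else 0)]
    refine Finset.sum_congr rfl fun w _ => ?_
    simp only [hV]
    split_ifs <;> ring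
  have hz : ∀ z, 0 ≤ law q f z := fun z => law_nonneg h0 f z
  have e2 : ∀ s ∈ univ.image V, law q V s * (if R s.1 s.2.1 then 1 else 0) ≤
      ∑ w, ∑ w', (if (X w, f w) = (s.1, s.2.2) ∧ (Y w', f w') = s.2 ∧ R s.1 s.2.1 then
        q w * q w' / law q f s.2.2 else 0) := by
    rintro ⟨a, b, z⟩ hs
    simp only
    by_cases hR : R a b
    · rw [if_pos hR, mul_one]
      have h1 := h.law_le hq a b z
      have e3 : ∑ w, ∑ w', (if (X w, f w) = (a, z) ∧ (Y w', f w') = (b, z) ∧ R a b then
          q w * q w' / law q f z else 0) =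
          law q (fun w => (X w, f w)) (a, z) * law q (fun w => (Y w, f w)) (b, z) /
            law q f z := by
        unfold law
        rw [Finset.sum_mul_sum, Finset.sum_div]
        refine Finset.sum_congr rfl fun w _ => ?_
        rw [Finset.sum_div]
        refine Finset.sum_congr rfl fun w' _ => ?_
        by_cases c1 : (X w, f w) = (a, z) <;> by_cases c2 : (Y w', f w') = (b, z) <;>
          simp [c1, c2, hR]
      rw [e3]
      rcases (hz z).eq_or_lt with h2 | h2
      · rw [← h2, div_zero]
        have h3 : law q V (a, (b, z)) ≤ law q f z := by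
          unfold law
          refine Finset.sum_le_sum fun w _ => ?_
          by_cases c1 : V w = (a, (b, z))
          · rw [if_pos c1, if_pos (Prod.ext_iff.mp (Prod.ext_iff.mp c1).2).2]
          · rw [if_neg c1]
            split_ifs
            · exact h0 w
            · exact le_rfl
        rw [← h2] at h3
        exact h3
      · rw [le_div_iff₀ h2]
        exact h1
    · rw [if_neg hR, mul_zero]
      refine Finset.sum_nonneg fun w _ => Finset.sum_nonneg fun w' _ => ?_
      split_ifs
      · exact div_nonneg (mul_nonneg (h0 w) (h0 w')) (hz z)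
      · exact le_rfl
  rw [e1]
  refine (Finset.sum_le_sum e2).trans ?_
  rw [Finset.sum_comm]
  refine Finset.sum_le_sum fun w _ => ?_
  rw [Finset.sum_comm]
  refine Finset.sum_le_sum fun w' _ => ?_
  by_cases hc : f w = f w' ∧ R (X w) (Y w')
  · rw [if_pos hc]
    have hn : 0 ≤ q w * q w' / law q f (f w) := div_nonneg (mul_nonneg (h0 w) (h0 w')) (hz _)
    refine (Finset.sum_le_sum (g := fun s => if s = (X w, (Y w', f w)) then
      q w * q w' / law q f (f w) else 0) ?_).trans ?_
    · rintro ⟨a, b, z⟩ _
      by_cases c1 : (X w, f w) = (a, z) ∧ (Y w', f w') = (b, z) ∧ R a b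
      · obtain ⟨k1, k2, k3⟩ := c1
        simp only [Prod.mk.injEq] at k1 k2
        obtain ⟨rfl, rfl⟩ := k1
        obtain ⟨rfl, k2⟩ := k2
        simp [k2, k3]
      · rw [if_neg c1]
        split_ifs
        · exact hn
        · exact le_rfl
    · rw [Finset.sum_ite_eq']
      split_ifs
      · exact le_rfl
      · exact hn
  · rw [if_neg hc]
    refine le_of_eq (Finset.sum_eq_zero ?_)
    rintro ⟨a, b, z⟩ _
    rw [if_neg]
    rintro ⟨k1, k2, k3⟩
    simp only [Prod.mk.injEq] at k1 k2
    exact hc ⟨k1.2.trans k2.2.symm, by rw [k1.1, k2.1]; exact k3⟩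

theorem vis_thm : VISStmt := by
  classical
  intro ι W Z _ _ q X Y f t η hq hCI hbad
  have h0 := hq.nonneg
  have hne : (univ : Finset W).Nonempty := by
    by_contra hcon
    rw [Finset.not_nonempty_iff_eq_empty] at hcon
    have h1 := hq.sum_one
    rw [hcon, Finset.sum_empty] at h1
    exact zero_ne_one h1
  obtain ⟨R, hR⟩ : ∃ R : (ι → ℝ) → (ι → ℝ) → Prop, ∀ x y, R x y ↔ ¬ ∃ i, t < |x i - y i| :=
    ⟨fun x y => ¬ ∃ i, t < |x i - y i|, fun _ _ => Iff.rfl⟩
  set G : Z → (ι → ℝ) → ℝ := fun z b => ∑ w, if f w = z ∧ R (X w) b then q w else 0 with hG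
  have hex : ∀ z : Z, ∃ w : W, ∀ w', G z (Y w') ≤ G z (Y w) := by
    intro z
    obtain ⟨w, -, h⟩ := Finset.exists_max_image univ (fun w => G z (Y w)) hne
    exact ⟨w, fun w' => h w' (Finset.mem_univ w')⟩
  choose v hv using hex
  refine ⟨fun z => Y (v z), fun z => ⟨v z, rfl⟩, ?_⟩
  have key : ∑ w, (if R (X w) (Y w) then q w else 0) ≤
      ∑ w, (if R (X w) (Y (v (f w))) then q w else 0) := by
    refine (ci_le_copies hq hCI R).trans ?_
    rw [Finset.sum_comm]
    have e1 : ∀ w' : W, ∑ w, (if f w = f w' ∧ R (X w) (Y w') then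
        q w * q w' / law q f (f w) else 0) = q w' / law q f (f w') * G (f w') (Y w') := by
      intro w'
      rw [hG]
      simp only
      rw [Finset.mul_sum]
      refine Finset.sum_congr rfl fun w _ => ?_
      by_cases hc : f w = f w' ∧ R (X w) (Y w')
      · rw [if_pos hc, if_pos hc, hc.1]
        ring
      · rw [if_neg hc, if_neg hc, mul_zero]
    have e2 : ∀ w' : W, q w' / law q f (f w') * G (f w') (Y w') ≤
        q w' / law q f (f w') * G (f w') (Y (v (f w'))) := fun w' =>
      mul_le_mul_of_nonneg_left (hv _ _) (div_nonneg (h0 w') (law_nonneg h0 _ _))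
    refine (Finset.sum_le_sum fun w' _ => (e1 w').le.trans (e2 w')).trans ?_
    have e3 : ∀ w' : W, q w' / law q f (f w') * G (f w') (Y (v (f w'))) =
        ∑ w, (if R (X w) (Y (v (f w))) then q w * (if f w' = f w then q w' / law q f (f w)
          else 0) else 0) := by
      intro w'
      rw [hG]
      simp only
      rw [Finset.mul_sum]
      refine Finset.sum_congr rfl fun w _ => ?_
      by_cases h1 : f w = f w'
      · by_cases h2 : R (X w) (Y (v (f w')))
        · rw [if_pos ⟨h1, h2⟩, h1, if_pos h2, if_pos rfl]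
          ring
        · rw [if_neg (fun h => h2 h.2), h1, if_neg h2, mul_zero]
      · have h1' : ¬ f w' = f w := fun h => h1 h.symm
        rw [if_neg (fun h : f w = f w' ∧ R (X w) (Y (v (f w'))) => h1 h.1), mul_zero]
        simp only [if_neg h1', mul_zero]
        split_ifs <;> rfl
    rw [Finset.sum_congr rfl fun w' _ => e3 w', Finset.sum_comm]
    refine Finset.sum_le_sum fun w _ => ?_
    by_cases h2 : R (X w) (Y (v (f w)))
    · simp only [if_pos h2]
      rw [← Finset.mul_sum]
      have e4 : ∑ w', (if f w' = f w then q w' / law q f (f w) else 0) ≤ 1 := by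
        have e5 : ∑ w', (if f w' = f w then q w' / law q f (f w) else 0) =
            law q f (f w) / law q f (f w) := by
          conv_rhs => rw [law, Finset.sum_div]
          refine Finset.sum_congr rfl fun w' _ => ?_
          by_cases h3 : f w' = f w
          · rw [if_pos h3, if_pos h3]
            rfl
          · rw [if_neg h3, if_neg h3, zero_div]
        rw [e5]
        exact div_self_le_one _
      calc q w * _ ≤ q w * 1 := mul_le_mul_of_nonneg_left e4 (h0 w)
        _ = q w := mul_one _
    · simp only [if_neg h2]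
      rw [Finset.sum_const_zero]
  have e0 : ∀ g : W → (ι → ℝ), Pb q (fun w => ∃ i, t < |X w i - g w i|) =
      1 - ∑ w, (if R (X w) (g w) then q w else 0) := by
    intro g
    rw [← hq.sum_one, ← Finset.sum_sub_distrib]
    unfold Pb
    refine Finset.sum_congr rfl fun w _ => ?_
    by_cases h1 : ∃ i, t < |X w i - g w i|
    · rw [if_pos h1, if_neg (fun h => (hR _ _).1 h h1), sub_zero]
    · rw [if_neg h1, if_pos ((hR _ _).2 h1), sub_self]
  rw [e0 Y] at hbad
  rw [e0 (fun w => Y (v (f w)))]
  linarith

end Pool.BFL
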